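import Mathlib
import Pool.Graph.R_seed8.W307.RT.Tors
import Pool.Agent.H457.A.T1j

/-!
# Large ranks are super-exponentially rare among the curves with full rational 2-torsion

All elliptic curves over `ℚ` all of whose 2-torsion is rational, ordered by height: the number of
these curves of height at most `H` tends to infinity with `H`, and for every `r` the proportion of
those of rank at least `r` is at most `C exp (-c r log r)` for all large `H`, with absolute
constants `C`, `c > 0`.
-/

set_option autoImplicit false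

namespace Pool.Agent.Results.MP_157626_nt.FullTwoTorsionTail

open Finset Filter

/-- the curve `y² = x³ + A x + B` over `ℚ` -/
def E (A B : ℤ) : WeierstrassCurve ℚ := ⟨0, 0, 0, (A : ℚ), (B : ℚ)⟩

open Classical in
/-- The pairs `(A, B)` of integers such that `4 A³ + 27 B² ≠ 0`, there is no prime `p` with
`p⁴ ∣ A` and `p⁶ ∣ B`, the height `max (4 |A|³) (27 B²)` is at most `H`, and `Z/2 x Z/2` embeds in
the group of the rational points of `y² = x³ + A x + B`. (The bounds `|A|, |B| ≤ H` follow from the
bound of the height. Every elliptic curve over `ℚ` is isomorphic to `E A B` for exactly one pair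
with the first two properties.) -/
noncomputable def Fam (H : ℕ) : Finset (ℤ × ℤ) :=
  ((Icc (-(H : ℤ)) H) ×ˢ (Icc (-(H : ℤ)) H)).filter (fun c : ℤ × ℤ =>
    4 * c.1 ^ 3 + 27 * c.2 ^ 2 ≠ 0 ∧ 4 * |c.1| ^ 3 ≤ H ∧ 27 * c.2 ^ 2 ≤ H ∧
    (∀ p : ℕ, p.Prime → ¬ ((p : ℤ) ^ 4 ∣ c.1 ∧ (p : ℤ) ^ 6 ∣ c.2)) ∧
    ∃ f : ZMod 2 × ZMod 2 →+ (E c.1 c.2).toAffine.Point, Function.Injective f)

open Classical in
/-- the members of `Fam H` of rank at least `r` -/
noncomputable def Large (r H : ℕ) : Finset (ℤ × ℤ) :=
  (Fam H).filter (fun c : ℤ × ℤ => r ≤ Module.finrank ℤ (E c.1 c.2).toAffine.Point)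

lemma Fam_eq (H : ℕ) : Fam H = Pool.Agent.W307.RT.Cv 2 H := by
  classical
  unfold Fam Pool.Agent.W307.RT.Cv
  apply filter_congr
  intro c _
  have h : Pool.Agent.W307.RT.HasT 2 (Pool.Agent.W307.RT.Sh c.1 c.2) ↔
      ∃ f : ZMod 2 × ZMod 2 →+ (E c.1 c.2).toAffine.Point, Function.Injective f :=
    Pool.Agent.W307.RT.tors_iff
  rw [h]

/-- **Theorem.** The number of the elliptic curves over `ℚ` of height at most `H` with full
rational 2-torsion tends to infinity with `H`. There are constants `C, c > 0` such that for every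
`r`, for all large `H`, the number of those of rank at least `r` is at most `C exp (-c r log r)`
times the number of all of them. -/
theorem result : Tendsto (fun H : ℕ => (Fam H).card) atTop atTop ∧
    ∃ C c : ℝ, 0 < C ∧ 0 < c ∧ ∀ r : ℕ, ∀ᶠ H : ℕ in atTop,
      ((Large r H).card : ℝ) ≤ C * Real.exp (-(c * r * Real.log r)) * (Fam H).card := by
  refine ⟨?_, ?_⟩
  · simp only [Fam_eq]
    exact Pool.Agent.W307.RT.tendsto_of_low Pool.Agent.H457.B.low2
  · obtain ⟨C, c, hC, hc, h⟩ := Pool.Agent.H457.A.height_tail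
    refine ⟨C, c, hC, hc, fun r => ?_⟩
    filter_upwards [h r] with H hH
    rw [mul_assoc c]
    have h1 : Large r H = Pool.Agent.H457.A.CR r H := by
      unfold Large Pool.Agent.H457.A.CR
      rw [Fam_eq]
      rfl
    rw [h1, Fam_eq]
    exact hH

end Pool.Agent.Results.MP_157626_nt.FullTwoTorsionTail
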