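import Mathlib
import Pool.Agent.H457.A.T2c

/-!
# Super-exponential tail of the rank in one-parameter families with full 2-torsion

Let `D, P, Q ∈ ℚ[t]` be such that `D P Q (P - Q)` is squarefree with only rational roots, and
either all three of `P`, `Q`, `P - Q` are nonconstant or all three are constant. For the curves
`E_t : y² = x (x - D(t) P(t)) (x - D(t) Q(t))` over `ℚ` the proportion of the integers
`|t| ≤ X` with `rank E_t(ℚ) ≥ r` is at most `C exp (-c r log r)` as `X → ∞`, for every `r`, with
positive constants `C`, `c` that depend only on the family.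

The proof bounds, for each `r`, the moment of order `k ≈ log r` of the part of the 2-Selmer group
that is seen by the primes up to `X ^ (1 / K)`, `K ≈ r`, over those `t` for which each of the
linear factors has about the expected number of small prime factors (`mom_typ`), together with a
large-deviation bound for the size of the smooth part of the values (`tail`).
-/

namespace Pool.Agent.Results.MP_157626_nt.OneParameterTail

open Finset Polynomial

/-- the curve `y² = x (x - A) (x - B)` over `ℚ` -/
def E (A B : ℚ) : WeierstrassCurve ℚ := ⟨0, -(A + B), 0, A * B, 0⟩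

open Classical in
/-- **The proportion of the members of rank at least `r` is at most `C exp (-c r log r)`.** -/
theorem result (D P Q : ℚ[X]) (hs : (D * P * Q * (P - Q)).Splits)
    (hsq : Squarefree (D * P * Q * (P - Q)))
    (hdeg : (P.natDegree = 0 ∧ Q.natDegree = 0) ∨
      (0 < P.natDegree ∧ 0 < Q.natDegree ∧ 0 < (P - Q).natDegree)) :
    ∃ C c : ℝ, 0 < C ∧ 0 < c ∧ ∀ r : ℕ, ∀ᶠ X : ℕ in Filter.atTop,
      (((Icc (-(X : ℤ)) X).filter (fun t : ℤ => (D * P * Q * (P - Q)).eval (t : ℚ) ≠ 0 ∧
        r ≤ Module.finrank ℤ (E (D.eval (t : ℚ) * P.eval (t : ℚ))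
          (D.eval (t : ℚ) * Q.eval (t : ℚ))).toAffine.Point)).card : ℝ) ≤
        C * Real.exp (-(c * (r * Real.log r))) * X :=
  Pool.Agent.H457.A.poly_tail D P Q hs hsq hdeg

end Pool.Agent.Results.MP_157626_nt.OneParameterTail
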