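import Mathlib
import Pool.Agent.H457.A.BF5

/-!
# Super-exponential tail of the rank among the rational fibres of elliptic surfaces

Let `E_t : y² = x (x - D_0(t)) (x - D_1(t))` be an elliptic surface over `ℙ¹(ℚ)` with full
2-torsion, where `D_0`, `D_1` and `D_2 = D_0 - D_1` are products of linear factors,

`D_k(t) = a_k ∏_{cls j = k} (α_j t + β_j) ^ μ_j`,

the linear forms `α_j u + β_j v` are pairwise non-proportional (one of the `α_j` may vanish: it
stands for the point `t = ∞`), all `μ_j` are odd, `∑_{cls j = k} μ_j = 2 m` for `k = 0, 1, 2`, and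
the numbers `n_0`, `n_1`, `n_2` of the forms in the three classes satisfy the strict triangle
inequalities. Then the proportion of the rational numbers `t` of height at most `X` with
`rank E_t(ℚ) ≥ r` is at most `C exp (-c r log r)` as `X → ∞`, for every `r`, with positive
constants `C`, `c` that depend only on the surface.
-/

set_option autoImplicit false

namespace Pool.Agent.Results.MP_157626_nt.RationalFibresTail

open Finset

/-- the curve `y² = x (x - A) (x - B)` over `ℚ` -/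
def E (A B : ℚ) : WeierstrassCurve ℚ := ⟨0, -(A + B), 0, A * B, 0⟩

/-- the rational numbers `p / q` with `|p| ≤ X` and `1 ≤ q ≤ X`, i.e. those of height at most
`X` -/
noncomputable def QH (X : ℕ) : Finset ℚ :=
  ((Icc (-(X : ℤ)) X) ×ˢ (Icc (1 : ℤ) X)).image (fun p : ℤ × ℤ => (p.1 : ℚ) / p.2)

/-- `D_k(t) = a_k ∏_{cls j = k} (α_j t + β_j) ^ μ_j` -/
def D {J : Type} [Fintype J] (cls : J → Fin 3) (a : Fin 3 → ℤ) (μ : J → ℕ) (α β : J → ℤ)
    (k : Fin 3) (t : ℚ) : ℚ :=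
  (a k : ℚ) * ∏ j ∈ univ.filter (fun j => cls j = k), ((α j : ℚ) * t + β j) ^ μ j

/-- the number of the linear forms of the class `k` -/
def n {J : Type} [Fintype J] (cls : J → Fin 3) (k : Fin 3) : ℕ :=
  (univ.filter (fun j => cls j = k)).card

open Classical in
/-- **The proportion of the rational fibres of rank at least `r` is at most
`C exp (-c r log r)`.** -/
theorem result {J : Type} [Fintype J] (cls : J → Fin 3) (a : Fin 3 → ℤ) (μ : J → ℕ)
    (α β : J → ℤ) (m : ℕ) (ha : ∀ k, a k ≠ 0) (hμ : ∀ j, Odd (μ j))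
    (hR : ∀ i j, i ≠ j → α i * β j ≠ α j * β i)
    (hdeg : ∀ k, ∑ j ∈ univ.filter (fun j => cls j = k), μ j = 2 * m)
    (htri : n cls 0 < n cls 1 + n cls 2 ∧ n cls 1 < n cls 0 + n cls 2 ∧
      n cls 2 < n cls 0 + n cls 1)
    (hD : ∀ t : ℚ, D cls a μ α β 0 t - D cls a μ α β 1 t = D cls a μ α β 2 t) :
    ∃ C c : ℝ, 0 < C ∧ 0 < c ∧ ∀ r : ℕ, ∀ᶠ X : ℕ in Filter.atTop,
      (((QH X).filter (fun t : ℚ => (∀ k, D cls a μ α β k t ≠ 0) ∧
        r ≤ Module.finrank ℤ (E (D cls a μ α β 0 t) (D cls a μ α β 1 t)).toAffine.Point)).card :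
          ℝ) ≤ C * Real.exp (-(c * r * Real.log r)) * (QH X).card := by
  obtain ⟨C, c, hC, hc, h⟩ := Pool.Agent.H457.A.fib_tail cls a μ α β m ha hμ hR hdeg
    (by
      obtain ⟨h0, h1, h2⟩ := htri
      unfold n at h0 h1 h2
      intro k k' k'' h3 h4 h5
      have h6 : ∀ k k' k'' : Fin 3, k' ≠ k'' → k ≠ k' → k ≠ k'' →
          (k = 0 ∧ ((k' = 1 ∧ k'' = 2) ∨ (k' = 2 ∧ k'' = 1))) ∨
          (k = 1 ∧ ((k' = 0 ∧ k'' = 2) ∨ (k' = 2 ∧ k'' = 0))) ∨
          (k = 2 ∧ ((k' = 0 ∧ k'' = 1) ∨ (k' = 1 ∧ k'' = 0))) := by decide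
      rcases h6 k k' k'' h3 h4 h5 with ⟨rfl, ⟨rfl, rfl⟩ | ⟨rfl, rfl⟩⟩ |
        ⟨rfl, ⟨rfl, rfl⟩ | ⟨rfl, rfl⟩⟩ | ⟨rfl, ⟨rfl, rfl⟩ | ⟨rfl, rfl⟩⟩ <;> omega) hD
  refine ⟨C, c, hC, hc, fun r => ?_⟩
  filter_upwards [h r] with X hX
  rw [mul_assoc c]
  exact hX

end Pool.Agent.Results.MP_157626_nt.RationalFibresTail
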