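import Mathlib
import Pool.Graph.R_seed8.W307.RT.Tors
import Pool.Agent.H514.Fin2

/-!
# The average of `4 ^ rank` over the elliptic curves with full rational 2-torsion is bounded

All elliptic curves over `ℚ` all of whose 2-torsion is rational, ordered by height: the number of
these curves of height at most `H` tends to infinity with `H`, and the average of `4 ^ rank` over
them is bounded by a constant. In particular the second moment of `2 ^ rank` and every moment of
the rank are bounded, and the proportion of the curves of rank at least `r` is at most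
`C / 4 ^ r`, uniformly in `H`.
-/

set_option autoImplicit false

namespace Pool.Agent.Results.MP_157626_nt.SecondMoment

open Finset Filter

/-- the curve `y² = x³ + A x + B` over `ℚ` -/
def E (A B : ℤ) : WeierstrassCurve ℚ := ⟨0, 0, 0, (A : ℚ), (B : ℚ)⟩

open Classical in
/-- The pairs `(A, B)` of integers such that `4 A³ + 27 B² ≠ 0`, there is no prime `p` with
`p⁴ ∣ A` and `p⁶ ∣ B`, the height `max (4 |A|³) (27 B²)` is at most `H`, and `Z/2 x Z/2` embeds in
the group of the rational points of `y² = x³ + A x + B`. (The bounds `|A|, |B| ≤ H` follow from the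
bound of the height. Every elliptic curve over `ℚ` is isomorphic to `E A B` for exactly one pair
with the first two properties.) -/
noncomputable def Fam (H : ℕ) : Finset (ℤ × ℤ) :=
  ((Icc (-(H : ℤ)) H) ×ˢ (Icc (-(H : ℤ)) H)).filter (fun c : ℤ × ℤ =>
    4 * c.1 ^ 3 + 27 * c.2 ^ 2 ≠ 0 ∧ 4 * |c.1| ^ 3 ≤ H ∧ 27 * c.2 ^ 2 ≤ H ∧
    (∀ p : ℕ, p.Prime → ¬ ((p : ℤ) ^ 4 ∣ c.1 ∧ (p : ℤ) ^ 6 ∣ c.2)) ∧
    ∃ f : ZMod 2 × ZMod 2 →+ (E c.1 c.2).toAffine.Point, Function.Injective f)

lemma Fam_eq (H : ℕ) : Fam H = Pool.Agent.W307.RT.Cv 2 H := by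
  classical
  unfold Fam Pool.Agent.W307.RT.Cv
  apply filter_congr
  intro c _
  have h : Pool.Agent.W307.RT.HasT 2 (Pool.Agent.W307.RT.Sh c.1 c.2) ↔
      ∃ f : ZMod 2 × ZMod 2 →+ (E c.1 c.2).toAffine.Point, Function.Injective f :=
    Pool.Agent.W307.RT.tors_iff
  rw [h]

/-- **Theorem.** The number of the elliptic curves over `ℚ` of height at most `H` with full
rational 2-torsion tends to infinity with `H`, and the average of `4 ^ rank` over them is
bounded. -/
theorem result : Tendsto (fun H : ℕ => (Fam H).card) atTop atTop ∧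
    ∃ C : ℝ, ∀ H : ℕ,
    ∑ c ∈ Fam H, (4 : ℝ) ^ Module.finrank ℤ (E c.1 c.2).toAffine.Point ≤ C * (Fam H).card := by
  simp only [Fam_eq]
  exact ⟨Pool.Agent.W307.RT.tendsto_of_low Pool.Agent.H514.low2, Pool.Agent.H514.main2⟩

end Pool.Agent.Results.MP_157626_nt.SecondMoment
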